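import Pool.Agent.Results.MP_87f021_gt.IntersectionClosedBase

/-!
# A point-countable base closed under finite intersections which is not resolvable (in ZFC)

The space `X` of `IntersectionClosedBase` is examined further. A point `x` lies in a member `A w m`
of the base only if `w = x`, or if for some `k ≥ m` the centre `w` agrees with `x` below `k`,
`w k = none` and `x k` is the code of the tail of `w` after `k`; as the code is injective, `w` is
determined by `x` and `k` in the second case. So the base is point-countable and the space is first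
countable. The cylinders are open and every nonempty open set contains a cylinder, so the topology
is finer than a complete metrizable topology and it is Baire.
-/

set_option autoImplicit false

open TopologicalSpace Set Cardinal Filter Topology

namespace Pool.Agent.Results.MP_87f021_gt.PointCountableBase

open Pool.Agent.Results.MP_87f021_gt.IntersectionClosedBase

/-- Every point lies in only countably many members of the base. -/
theorem pointCountable (x : X) : {U : Set X | U ∈ B ∧ x ∈ U}.Countable := by
  have h1 : ∀ m : ℕ, ({U : Set X | ∃ w : W, w.1 = x ∧ U = A w m} : Set (Set X)).Subsingleton := by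
    rintro m U ⟨w, hw, rfl⟩ V ⟨w', hw', rfl⟩
    have : w = w' := Subtype.ext (hw.trans hw'.symm)
    rw [this]
  have h2 : ∀ k m : ℕ, ({U : Set X | ∃ w : W, w.1 k = none ∧ (∀ j < k, x j = w.1 j) ∧
      x k = some (cd w k) ∧ U = A w m} : Set (Set X)).Subsingleton := by
    rintro k m U ⟨w, a1, a2, a3, rfl⟩ V ⟨w', b1, b2, b3, rfl⟩
    have e1 : cd w k = cd w' k := by
      rw [a3] at b3
      exact Option.some.inj b3
    have : w = w' := cd_inj a1 b1 (fun j hj => (a2 j hj).symm.trans (b2 j hj)) e1
    rw [this]
  refine ((countable_iUnion fun m => (h1 m).countable).union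
    (countable_iUnion fun k => countable_iUnion fun m => (h2 k m).countable)).mono ?_
  rintro U ⟨hU, hx⟩
  rcases hU with rfl | ⟨w, m, hw, rfl⟩
  · exact absurd hx (by simp)
  rcases hx with hx | ⟨k, a1, a2, a3, a4⟩
  · left
    exact mem_iUnion.2 ⟨m, w, hx.symm, rfl⟩
  · right
    exact mem_iUnion.2 ⟨k, mem_iUnion.2 ⟨m, w, a2, a3, a4, rfl⟩⟩

/-- The space is first countable. -/
theorem firstCountable : FirstCountableTopology X := by
  refine ⟨fun x => ?_⟩
  exact HasCountableBasis.isCountablyGenerated ⟨isBasis_B.nhds_hasBasis (a := x), pointCountable x⟩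

/-- The letters with the discrete topology. -/
def L : Type := Option R

instance : TopologicalSpace L := ⊥

instance : DiscreteTopology L := ⟨rfl⟩

/-- The identity map onto the product of discrete spaces. -/
def toProd (x : X) : ℕ → L := x

theorem toProd_cont : Continuous toProd := by
  refine continuous_pi fun n => ?_
  refine continuous_discrete_rng.2 fun b => ?_
  rw [isOpen_iff_forall_mem_open]
  intro x hx
  refine ⟨{y : X | ∀ j < n + 1, y j = x j}, ?_, isOpen_cyl x (n + 1), fun _ _ => rfl⟩
  intro y hy
  have h1 : y n = x n := hy n (Nat.lt_succ_self n)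
  show y n = b
  rw [h1]
  exact hx

theorem toProd_bij : Function.Bijective toProd := Function.bijective_id

/-- The cylinders are open in the product. -/
theorem isOpen_cylL (x : ℕ → L) (n : ℕ) : IsOpen {y : ℕ → L | ∀ j < n, y j = x j} := by
  have : {y : ℕ → L | ∀ j < n, y j = x j} = ⋂ j ∈ Finset.range n, {y : ℕ → L | y j = x j} := by
    ext y; simp
  rw [this]
  refine isOpen_biInter_finset fun j _ => ?_
  have h1 : Continuous fun y : ℕ → L => y j := continuous_apply j
  have h2 : IsOpen ({x j} : Set L) := isOpen_discrete _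
  exact h2.preimage h1

/-- Cylinders form a base of the product. -/
theorem exists_cylL {O : Set (ℕ → L)} (hO : IsOpen O) {x : ℕ → L} (hx : x ∈ O) :
    ∃ n, {y : ℕ → L | ∀ j < n, y j = x j} ⊆ O := by
  rw [isOpen_pi_iff] at hO
  obtain ⟨I, u, hu, hsub⟩ := hO x hx
  refine ⟨I.sup id + 1, fun y hy => hsub fun i hi => ?_⟩
  have h1 : i ≤ I.sup id := Finset.le_sup (f := id) hi
  rw [hy i (by omega)]
  exact (hu i hi).2

/-- Every nonempty open set of `X` contains a cylinder. -/
theorem exists_cyl_subset {O : Set X} (hO : IsOpen O) (hne : O.Nonempty) :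
    ∃ (x : X) (n : ℕ), {y : X | ∀ j < n, y j = x j} ⊆ O := by
  obtain ⟨x, hx⟩ := hne
  obtain ⟨U, hU, hxU, hsub⟩ := isBasis_B.isOpen_iff.1 hO x hx
  rcases hU with rfl | ⟨w, m, hm, rfl⟩
  · exact absurd hxU (by simp)
  let y : X := fun j => if j = m then some (cd w m) else w.1 j
  have hym : y m = some (cd w m) := if_pos rfl
  refine ⟨y, m + 1, fun u hu => hsub (Or.inr ⟨m, le_rfl, hm, fun j hj => ?_, ?_⟩)⟩
  · rw [hu j (by omega)]
    exact if_neg hj.ne
  · rw [hu m (Nat.lt_succ_self m)]
    exact hym

/-- The space is Baire. -/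
theorem baire : BaireSpace X := by
  refine ⟨fun f ho hd => ?_⟩
  -- the union of the cylinders inside `f n`
  let G : ℕ → Set (ℕ → L) := fun n => {x | ∃ k, {y : X | ∀ j < k, y j = x j} ⊆ f n}
  have hGo : ∀ n, IsOpen (G n) := by
    intro n
    rw [isOpen_iff_forall_mem_open]
    rintro x ⟨k, hk⟩
    refine ⟨{y : ℕ → L | ∀ j < k, y j = x j}, ?_, isOpen_cylL x k, fun _ _ => rfl⟩
    intro y hy
    refine ⟨k, fun z hz => hk fun j hj => ?_⟩
    exact (hz j hj).trans (hy j hj)
  have hGd : ∀ n, Dense (G n) := by
    intro n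
    rw [dense_iff_inter_open]
    rintro O hO ⟨x, hx⟩
    obtain ⟨k, hk⟩ := exists_cylL hO hx
    have h1 : IsOpen ({y : X | ∀ j < k, y j = x j} ∩ f n) := (isOpen_cyl x k).inter (ho n)
    have h2 : ({y : X | ∀ j < k, y j = x j} ∩ f n).Nonempty :=
      (dense_iff_inter_open.1 (hd n)) _ (isOpen_cyl x k) ⟨x, fun _ _ => rfl⟩
    obtain ⟨y, l, hl⟩ := exists_cyl_subset h1 h2
    refine ⟨y, hk ?_, l, fun z hz => (hl hz).2⟩
    exact (hl (show y ∈ {u : X | ∀ j < l, u j = y j} from fun _ _ => rfl)).1
  rw [dense_iff_inter_open]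
  intro O hO hne
  obtain ⟨x, k, hk⟩ := exists_cyl_subset hO hne
  obtain ⟨y, hy1, hy2⟩ := (dense_iff_inter_open.1 (dense_iInter_of_isOpen_nat hGo hGd)) _
    (isOpen_cylL x k) ⟨x, fun _ _ => rfl⟩
  refine ⟨y, hk hy1, ?_⟩
  refine mem_iInter.2 fun n => ?_
  obtain ⟨l, hl⟩ := mem_iInter.1 hy2 n
  exact hl (fun _ _ => rfl)

/-- There is, in ZFC, a zero-dimensional, first countable, Baire `T₃` space `X` without isolated
points, of cardinality `2^ω`, whose topology is finer than a completely metrizable one, and which
has a point-countable base of clopen sets that is closed under finite intersections and is not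
resolvable. -/
theorem result : ∃ (X : Type) (_ : TopologicalSpace X), #X = 𝔠 ∧ T3Space X ∧
    FirstCountableTopology X ∧ BaireSpace X ∧
    (∃ (Y : Type) (_ : TopologicalSpace Y), IsCompletelyMetrizableSpace Y ∧
      ∃ f : X → Y, Continuous f ∧ Function.Bijective f) ∧
    (∀ x : X, ¬ IsOpen ({x} : Set X)) ∧
    ∃ B : Set (Set X), IsTopologicalBasis B ∧ (∀ U ∈ B, IsClopen U) ∧
      (∀ x : X, {U : Set X | U ∈ B ∧ x ∈ U}.Countable) ∧
      (∀ U ∈ B, ∀ V ∈ B, U ∩ V ∈ B) ∧
      ∀ B0 B1 : Set (Set X), B0 ∪ B1 = B → Disjoint B0 B1 →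
        ¬ (IsTopologicalBasis B0 ∧ IsTopologicalBasis B1) :=
  ⟨X, inferInstance, mk_X, inferInstance, firstCountable, baire,
    ⟨ℕ → L, inferInstance, inferInstance, toProd, toProd_cont, toProd_bij⟩, perfect, B, isBasis_B,
    fun _ h => isClopen_of_mem h, pointCountable, fun _ hU _ hV => inter_mem hU hV, not_resolvable⟩

end Pool.Agent.Results.MP_87f021_gt.PointCountableBase
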